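import Mathlib
import Pool.Agent.V11141.EtaDef
import Pool.Agent.V11141.EtaMain

/-!
# The functional eta is nonnegative on discrete varieties
-/

namespace Pool.Agent.Results.MP_165839_co.EtaNonneg

open Pool.Agent.V11141.Eta

open Classical in
/-- For every `d ≥ 0` and every `d`-variety `G`: `η(G) ≥ 0`; more precisely `η(G) = 0` if `d` is
even, and `η(G)` is four times the number of nonempty complete subgraphs of `G` with an even
number of vertices if `d` is odd. -/
theorem result {V : Type} [Fintype V] (G : SimpleGraph V) (d : ℕ)
    (hG : IsVariety G (d + 1) Finset.univ) :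
    0 ≤ eta G ∧ (Even d → eta G = 0) ∧
      (Odd d → eta G = 4 * ((Finset.univ.filter fun x : BV G => Even x.1.card).card : ℤ)) := by
  refine ⟨?_, eta_even G hG, eta_odd G hG⟩
  rcases Nat.even_or_odd d with hd | hd
  · rw [eta_even G hG hd]
  · rw [eta_odd G hG hd]
    positivity

end Pool.Agent.Results.MP_165839_co.EtaNonneg
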